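import Pool.Agent.Helper94.LG.Sheet3
open MeasureTheory Metric Set Filter Topology
open scoped ENNReal NNReal

/-! # LG, row EX_CNT1 -/

namespace H11ST
namespace LG

variable {d n : ℕ}

theorem ex_en_self (y z : E d) (h : z = y) : en y y z = 0 := by
  subst h
  simp [en]

theorem ex_en_left (y z : E d) (h : z ≠ y) : en y y z = 1 := by
  unfold en
  rw [if_neg (Ne.symm h), if_pos rfl, if_neg h]

theorem ex_en_right (y z : E d) (h : z ≠ y) : en y z y = 1 := by
  unfold en
  rw [if_neg h, if_neg h, if_pos rfl]

theorem ex_cnt1_aux (p : Fin n → E d) (y : E d) (hy : ∀ i, p i ≠ y) : ∀ t : BT (Fin n) (E d),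
    (t.pos p = y → gqn y t + 1 ≤ ggn p y t) ∧
    (t.pos p ≠ y → gqn y t = 0 ∨ gqn y t + 2 ≤ ggn p y t)
  | .leaf i => ⟨fun h => absurd h (hy i), fun _ => Or.inl rfl⟩
  | .node z l r => by
    have hl := ex_cnt1_aux p y hy l
    have hr := ex_cnt1_aux p y hy r
    constructor
    · intro h
      have hz : z = y := h
      subst hz
      have e1 : gqn z (.node z l r) = 1 + gqn z l + gqn z r := by simp [gqn]
      have e2 : ggn p z (.node z l r) =
        en z z (l.pos p) + ggn p z l + (en z z (r.pos p) + ggn p z r) := rfl
      have h1 : gqn z l + 1 ≤ en z z (l.pos p) + ggn p z l := by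
        by_cases h : l.pos p = z
        · have := hl.1 h
          omega
        · rw [ex_en_left z _ h]
          rcases hl.2 h with h | h <;> omega
      have h2 : gqn z r + 1 ≤ en z z (r.pos p) + ggn p z r := by
        by_cases h : r.pos p = z
        · have := hr.1 h
          omega
        · rw [ex_en_left z _ h]
          rcases hr.2 h with h | h <;> omega
      rw [e1, e2]
      omega
    · intro h
      have hz : z ≠ y := h
      have e1 : gqn y (.node z l r) = gqn y l + gqn y r := by simp [gqn, hz]
      have e2 : ggn p y (.node z l r) =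
        en y z (l.pos p) + ggn p y l + (en y z (r.pos p) + ggn p y r) := rfl
      have h1 : gqn y l = 0 ∨ gqn y l + 2 ≤ en y z (l.pos p) + ggn p y l := by
        by_cases h : l.pos p = y
        · have := hl.1 h
          right
          rw [h, ex_en_right y z hz]
          omega
        · rcases hl.2 h with h | h
          · exact Or.inl h
          · right; omega
      have h2 : gqn y r = 0 ∨ gqn y r + 2 ≤ en y z (r.pos p) + ggn p y r := by
        by_cases h : r.pos p = y
        · have := hr.1 h
          right
          rw [h, ex_en_right y z hz]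
          omega
        · rcases hr.2 h with h | h
          · exact Or.inl h
          · right; omega
      rw [e1, e2]
      omega

theorem ex_cnt1 : EX_CNT1 := by
  intro d n p y hy i0 t ht
  have h := ex_cnt1_aux p y hy t
  by_cases hp : t.pos p = y
  · have := h.1 hp
    rw [hp, ex_en_right y _ (hy i0)]
    omega
  · rcases h.2 hp with h | h <;> omega

end LG
end H11ST
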